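import Pool.Agent.Lib.KD41.W0

/-! MP_e43fce_nt, KL2 section 1.1: the pairing bound for the character sum over words. -/

set_option autoImplicit false

namespace Pool.Agent.Lib.KD38

open Finset Pool.Agent.Lib.KD41

/-- offset of a word -/
def F : List ℕ → ℕ
  | [] => 0
  | _ :: w => 2 ^ w.sum + 3 * F w

/-- sum over the words of length `k` with letters in `1..L`, first letter first -/
def WS {M : Type*} [AddCommMonoid M] (L : ℕ) : ℕ → (List ℕ → M) → M
  | 0, f => f []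
  | k + 1, f => ∑ a ∈ Finset.Icc 1 L, WS L k (fun w => f (a :: w))

/-- additive character of the reals -/
noncomputable def ee (t : ℝ) : ℂ := Complex.exp (((2 * Real.pi * t : ℝ) : ℂ) * Complex.I)

theorem ee_add (s t : ℝ) : ee (s + t) = ee s * ee t := by
  unfold ee
  rw [← Complex.exp_add]
  congr 1
  push_cast
  ring

theorem ee_int (n : ℤ) : ee n = 1 := by
  unfold ee
  have := Complex.exp_int_mul_two_pi_mul_I n
  rw [← this]
  congr 1
  push_cast
  ring

theorem norm_ee (t : ℝ) : ‖ee t‖ = 1 := by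
  unfold ee
  exact Complex.norm_exp_ofReal_mul_I _

/-- the character only depends on the residue -/
theorem ee_congr {R : ℕ} {a b : ℤ} (h : (3 : ℤ) ^ R ∣ a - b) :
    ee ((a : ℝ) / 3 ^ R) = ee ((b : ℝ) / 3 ^ R) := by
  obtain ⟨k, hk⟩ := h
  have h3 : (3 : ℝ) ^ R ≠ 0 := by positivity
  have e : (a : ℝ) / 3 ^ R = (b : ℝ) / 3 ^ R + (k : ℤ) := by
    have : (a : ℝ) = b + 3 ^ R * k := by
      have : a = b + 3 ^ R * k := by linarith
      rw [this]; push_cast; ring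
    rw [this]; field_simp
  rw [e, ee_add, ee_int, mul_one]

theorem norm_one_add_ee (y : ℝ) : ‖1 + ee y‖ = 2 * |Real.cos (Real.pi * y)| := by
  have h1 : ee y = ee (y / 2) * ee (y / 2) := by rw [← ee_add]; congr 1; ring
  have h2 : (1 : ℂ) = ee (y / 2) * ee (-(y / 2)) := by
    rw [← ee_add]
    have : y / 2 + -(y / 2) = ((0 : ℤ) : ℝ) := by simp
    rw [this, ee_int]
  have h3 : ee (-(y / 2)) + ee (y / 2) = ((2 * Real.cos (Real.pi * y) : ℝ) : ℂ) := by
    unfold ee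
    push_cast
    rw [Complex.cos]
    have e1 : (2 * (Real.pi : ℂ) * -((y : ℂ) / 2)) * Complex.I = -((Real.pi : ℂ) * y * Complex.I) := by
      ring
    have e2 : (2 * (Real.pi : ℂ) * ((y : ℂ) / 2)) * Complex.I = ((Real.pi : ℂ) * y * Complex.I) := by
      ring
    have e3 : -((Real.pi : ℂ) * y) * Complex.I = -((Real.pi : ℂ) * y * Complex.I) := by ring
    rw [e1, e2, e3]
    ring
  have h4 : 1 + ee y = ee (y / 2) * (ee (-(y / 2)) + ee (y / 2)) := by
    rw [mul_add, ← h2, ← h1]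
  rw [h4, norm_mul, norm_ee, h3, one_mul, Complex.norm_real, Real.norm_eq_abs, abs_mul]
  norm_num

theorem WS_congr {M : Type*} [AddCommMonoid M] (L k : ℕ) {f g : List ℕ → M}
    (h : ∀ w, f w = g w) : WS L k f = WS L k g := by
  have : f = g := funext h
  rw [this]

theorem WS_mul_left {M : Type*} [Semiring M] (L : ℕ) : ∀ (k : ℕ) (c : M) (f : List ℕ → M),
    WS L k (fun w => c * f w) = c * WS L k f
  | 0, _, _ => rfl
  | k + 1, c, f => by
    simp only [WS]
    rw [Finset.mul_sum]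
    exact Finset.sum_congr rfl fun a _ => WS_mul_left L k c _

/-- the pairs of letters with a given sum -/
def prs (L b : ℕ) : Finset (ℕ × ℕ) :=
  (Finset.Icc 1 L ×ˢ Finset.Icc 1 L).filter (fun p => p.1 + p.2 = b)

theorem card_prs (L b : ℕ) : (prs L b).card ≤ b - 1 := by
  have : (prs L b).card ≤ (Finset.Icc 1 (b - 1)).card := by
    apply Finset.card_le_card_of_injOn (fun p => p.2)
    · intro p hp
      simp only [prs, Finset.coe_filter, Finset.mem_product, Finset.mem_Icc, Set.mem_ofPred_eq] at hp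
      simp only [Finset.coe_Icc, Set.mem_Icc]
      omega
    · intro p hp q hq h
      simp only [prs, Finset.coe_filter, Finset.mem_product, Finset.mem_Icc, Set.mem_ofPred_eq] at hp hq
      simp only at h
      ext <;> omega
  simpa using this

theorem prs_three {L : ℕ} (hL : 2 ≤ L) : prs L 3 = {(1, 2), (2, 1)} := by
  ext ⟨x, y⟩
  simp only [prs, Finset.mem_filter, Finset.mem_product, Finset.mem_Icc, Finset.mem_insert,
    Finset.mem_singleton, Prod.mk.injEq]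
  omega

theorem WS_pair {M : Type*} [AddCommMonoid M] (L k : ℕ) (f : List ℕ → M) :
    WS L (k + 2) f = ∑ b ∈ Finset.Icc 2 (2 * L), ∑ p ∈ prs L b,
      WS L k (fun w => f (p.1 :: p.2 :: w)) := by
  have h1 : WS L (k + 2) f = ∑ p ∈ Finset.Icc 1 L ×ˢ Finset.Icc 1 L,
      WS L k (fun w => f (p.1 :: p.2 :: w)) := by
    rw [Finset.sum_product]
    rfl
  rw [h1, ← Finset.sum_fiberwise_of_maps_to (g := fun p : ℕ × ℕ => p.1 + p.2)
    (t := Finset.Icc 2 (2 * L))]
  · rfl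
  · intro p hp
    simp only [Finset.mem_product, Finset.mem_Icc] at hp ⊢
    omega

theorem pow_inv_dvd {R : ℕ} {h : ℤ} (hh : (3 : ℤ) ^ R ∣ 2 * h - 1) (s : ℕ) :
    (3 : ℤ) ^ R ∣ 2 ^ s * h ^ s - 1 := by
  have : (2 : ℤ) ^ s * h ^ s - 1 = (2 * h) ^ s - 1 ^ s := by rw [mul_pow, one_pow]
  rw [this]
  exact hh.trans (sub_dvd_pow_sub_pow _ _ s)

/-- white point: the cosine is at most `1 - c0` -/
theorem cos_white {u0 η h : ℤ} {r j l : ℕ} (hh : (3 : ℤ) ^ (r - 2 * j) ∣ 2 * h - 1)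
    (hu : u0 = h ^ 2 * η) (hw : ¬ Black u0 r j l) :
    |Real.cos (Real.pi * ((η * h ^ (l + 2) : ℤ) / 3 ^ (r - 2 * j) : ℝ))| ≤ 1 - c0 := by
  set R := r - 2 * j with hR
  set y : ℝ := ((η * h ^ (l + 2) : ℤ) / 3 ^ R : ℝ) with hy
  set N := round y with hN
  have h3 : (0 : ℝ) < 3 ^ R := by positivity
  have habs : |y - N| ≤ 1 / 2 := abs_sub_round y
  have hfar : 1 / 100 ≤ |y - N| := by
    by_contra hcon
    push Not at hcon
    apply hw
    refine ⟨η * h ^ (l + 2) - N * 3 ^ R, ?_, ?_⟩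
    · have e1 : ((100 * |η * h ^ (l + 2) - N * 3 ^ R| : ℤ) : ℝ) < ((3 ^ R : ℤ) : ℝ) := by
        push_cast
        have e2 : ((η : ℝ) * h ^ (l + 2) - N * 3 ^ R) = (y - N) * 3 ^ R := by
          rw [hy]; push_cast; field_simp
        rw [e2, abs_mul, abs_of_pos h3]
        nlinarith
      exact_mod_cast e1
    · have e3 := pow_inv_dvd hh l
      have e4 : (2 : ℤ) ^ l * (η * h ^ (l + 2) - N * 3 ^ R) - u0 =
          (2 ^ l * h ^ l - 1) * (η * h ^ 2) - 3 ^ R * (2 ^ l * N) := by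
        rw [hu]; ring
      rw [e4]
      exact dvd_sub (e3.mul_right _) (Dvd.intro _ rfl)
  have e5 : |Real.cos (Real.pi * y)| = |Real.cos (Real.pi * (y - N))| := by
    have : Real.pi * y = Real.pi * (y - N) + N * Real.pi := by ring
    rw [this, Real.cos_add_int_mul_pi]
    rw [abs_mul]
    have : |(-1 : ℝ) ^ N| = 1 := by
      rw [abs_zpow]; simp
    rw [this, one_mul]
  rw [e5, ← Real.cos_abs, abs_mul, abs_of_pos Real.pi_pos]
  have hpi := Real.pi_pos
  have hnn : 0 ≤ Real.cos (Real.pi * |y - N|) := by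
    apply Real.cos_nonneg_of_mem_Icc
    constructor
    · have : 0 ≤ Real.pi * |y - N| := by positivity
      linarith
    · nlinarith
  rw [abs_of_nonneg hnn]
  have : (1 : ℝ) - c0 = Real.cos (Real.pi / 100) := by unfold c0; ring
  rw [this]
  apply Real.cos_le_cos_of_nonneg_of_le_pi (by positivity) (by nlinarith)
  nlinarith

/-- the summand of the character sum -/
noncomputable def smd (η h : ℤ) (r j l : ℕ) (ψ : ℕ → ℂ) (w : List ℕ) : ℂ :=
  (1 / 2 : ℂ) ^ w.sum * (ψ w.sum * ee (((-(η * h ^ l * (h ^ w.sum * F w)) : ℤ) : ℝ) / 3 ^ (r - 2 * j)))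

theorem smd_cons {η h : ℤ} {r j l : ℕ} (ψ : ℕ → ℂ) (hh : (3 : ℤ) ^ (r - 2 * j) ∣ 2 * h - 1)
    (hr : 2 * (j + 1) ≤ r) (a a' : ℕ) (w : List ℕ) :
    smd η h r j l ψ (a :: a' :: w) =
      ((1 / 2 : ℂ) ^ (a + a') *
        ee (((-(η * h ^ l * (h ^ (a + a') * (2 ^ a' + 3))) : ℤ) : ℝ) / 3 ^ (r - 2 * j))) *
      smd η h r (j + 1) (l + (a + a')) (fun x => ψ (a + a' + x)) w := by
  unfold smd
  have hs : (a :: a' :: w).sum = (a + a') + w.sum := by simp [add_assoc]
  rw [hs]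
  set s := w.sum with hsdef
  have hF : (F (a :: a' :: w) : ℤ) = 2 ^ s * (2 ^ a' + 3) + 9 * F w := by
    simp only [F, List.sum_cons, ← hsdef]
    push_cast
    ring
  have e1 : ee (((-(η * h ^ l * (h ^ (a + a' + s) * F (a :: a' :: w))) : ℤ) : ℝ) / 3 ^ (r - 2 * j)) =
      ee (((-(η * h ^ l * (h ^ (a + a') * (2 ^ a' + 3))) : ℤ) : ℝ) / 3 ^ (r - 2 * j)) *
      ee (((-(η * h ^ (l + (a + a')) * (h ^ s * F w)) : ℤ) : ℝ) / 3 ^ (r - 2 * (j + 1))) := by
    have e2 : (((-(η * h ^ (l + (a + a')) * (h ^ s * F w)) : ℤ) : ℝ) / 3 ^ (r - 2 * (j + 1))) =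
        (((-(η * h ^ (l + (a + a')) * (h ^ s * (9 * F w))) : ℤ) : ℝ) / 3 ^ (r - 2 * j)) := by
      have : r - 2 * j = (r - 2 * (j + 1)) + 2 := by omega
      rw [this, pow_add]
      push_cast
      field_simp
      ring
    rw [e2, ← ee_add, ← add_div, ← Int.cast_add]
    apply ee_congr
    rw [hF]
    have e3 := pow_inv_dvd hh s
    have e4 : -(η * h ^ l * (h ^ (a + a' + s) * (2 ^ s * (2 ^ a' + 3) + 9 * (F w : ℤ)))) -
        (-(η * h ^ l * (h ^ (a + a') * (2 ^ a' + 3))) +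
          -(η * h ^ (l + (a + a')) * (h ^ s * (9 * F w)))) =
        (2 ^ s * h ^ s - 1) * (-(η * h ^ l * (h ^ (a + a') * (2 ^ a' + 3)))) := by
      ring
    rw [e4]
    exact e3.mul_right _
  rw [e1, pow_add]
  ring

open Classical in
theorem pair_aux (η h u0 : ℤ) (r L : ℕ) (hh : (3 : ℤ) ^ r ∣ 2 * h - 1) (hu : u0 = h ^ 2 * η) :
    ∀ (n j l : ℕ) (ψ : ℕ → ℂ), (∀ a, ‖ψ a‖ ≤ 1) → 2 * (j + n) ≤ r →
      ‖WS L (2 * n) (smd η h r j l ψ)‖ ≤ G u0 r (2 * L) n j l
  | 0, j, l, ψ, hψ, _ => by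
    simp only [WS, G, smd, List.sum_nil, pow_zero, one_mul]
    rw [norm_mul, norm_ee, mul_one]
    exact hψ 0
  | n + 1, j, l, ψ, hψ, hr => by
    have hh' : (3 : ℤ) ^ (r - 2 * j) ∣ 2 * h - 1 := (pow_dvd_pow 3 (Nat.sub_le _ _)).trans hh
    rw [show 2 * (n + 1) = 2 * n + 2 by ring, WS_pair, G]
    refine (norm_sum_le _ _).trans (Finset.sum_le_sum fun b hb => ?_)
    rw [Finset.mem_Icc] at hb
    set E := WS L (2 * n) (smd η h r (j + 1) (l + b) (fun x => ψ (b + x))) with hE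
    have ih : ‖E‖ ≤ G u0 r (2 * L) n (j + 1) (l + b) :=
      pair_aux η h u0 r L hh hu n (j + 1) (l + b) _ (fun a => hψ _) (by omega)
    set c : ℕ → ℂ := fun a' => ee (((-(η * h ^ l * (h ^ b * (2 ^ a' + 3))) : ℤ) : ℝ) / 3 ^ (r - 2 * j))
      with hc
    have e1 : ∑ p ∈ prs L b, WS L (2 * n) (fun w => smd η h r j l ψ (p.1 :: p.2 :: w)) =
        ((1 / 2 : ℂ) ^ b * ∑ p ∈ prs L b, c p.2) * E := by
      rw [Finset.mul_sum, Finset.sum_mul]
      apply Finset.sum_congr rfl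
      intro p hp
      simp only [prs, Finset.mem_filter] at hp
      have hpb : p.1 + p.2 = b := hp.2
      rw [WS_congr L (2 * n) (fun w => smd_cons ψ hh' (by omega) p.1 p.2 w), WS_mul_left, hpb]
    rw [e1, norm_mul, norm_mul, norm_pow]
    have e2 : ‖(1 / 2 : ℂ)‖ = 1 / 2 := by norm_num
    rw [e2]
    have hcard : ‖∑ p ∈ prs L b, c p.2‖ ≤ (b : ℝ) - 1 := by
      calc _ ≤ ∑ p ∈ prs L b, ‖c p.2‖ := norm_sum_le _ _
        _ = ((prs L b).card : ℝ) := by simp [hc, norm_ee]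
        _ ≤ ((b - 1 : ℕ) : ℝ) := by exact_mod_cast card_prs L b
        _ = (b : ℝ) - 1 := by rw [Nat.cast_sub (by omega)]; simp
    have key : (1 / 2 : ℝ) ^ b * ‖∑ p ∈ prs L b, c p.2‖ ≤
        Pb b * (if b = 3 ∧ ¬ Black u0 r j l then 1 - c0 else 1) := by
      by_cases hcase : b = 3 ∧ ¬ Black u0 r j l
      · obtain ⟨hb3, hw⟩ := hcase
        have hL : 2 ≤ L := by omega
        rw [if_pos ⟨hb3, hw⟩]
        subst hb3
        rw [prs_three hL, Finset.sum_pair (by simp)]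
        have e3 : c 2 + c 1 = c 1 * (1 + ee (((-(η * h ^ (l + 2)) : ℤ) : ℝ) / 3 ^ (r - 2 * j))) := by
          rw [mul_add, mul_one, add_comm (c 2)]
          congr 1
          rw [hc]
          simp only
          rw [← ee_add, ← add_div, ← Int.cast_add]
          apply ee_congr
          have e4 : -(η * h ^ l * (h ^ 3 * (2 ^ 2 + 3))) -
              (-(η * h ^ l * (h ^ 3 * (2 ^ 1 + 3))) + -(η * h ^ (l + 2))) =
              (2 * h - 1) * (-(η * h ^ (l + 2))) := by ring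
          rw [e4]
          exact hh'.mul_right _
        rw [e3, norm_mul, norm_one_add_ee]
        have e5 : ‖c 1‖ = 1 := norm_ee _
        rw [e5, one_mul]
        have e6 := cos_white hh' hu hw
        have e7 : |Real.cos (Real.pi * (((-(η * h ^ (l + 2)) : ℤ) : ℝ) / 3 ^ (r - 2 * j)))| =
            |Real.cos (Real.pi * ((η * h ^ (l + 2) : ℤ) / 3 ^ (r - 2 * j) : ℝ))| := by
          rw [← Real.cos_neg]
          congr 2
          push_cast
          ring
        rw [e7]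
        have e8 : Pb 3 = 1 / 4 := by unfold Pb; norm_num
        rw [e8]
        nlinarith
      · rw [if_neg hcase, mul_one]
        unfold Pb
        rw [one_div, inv_pow, div_eq_inv_mul]
        exact mul_le_mul_of_nonneg_left hcard (by positivity)
    exact mul_le_mul key ih (norm_nonneg _) (mul_nonneg (Pb_nonneg (by omega)) (kap_nonneg _))

/-- **PAIR** (KL2, 1.1) -/
theorem pair (η h : ℤ) (r L n : ℕ) (hh : (3 : ℤ) ^ r ∣ 2 * h - 1) (hr : 2 * n ≤ r) (ψ : ℕ → ℂ)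
    (hψ : ∀ a, ‖ψ a‖ ≤ 1) :
    ‖WS L (2 * n) (fun w => (1 / 2 : ℂ) ^ w.sum * (ψ w.sum *
        ee (((-(η * (h ^ w.sum * F w)) : ℤ) : ℝ) / 3 ^ r)))‖ ≤ G (h ^ 2 * η) r (2 * L) n 0 0 := by
  have := pair_aux η h (h ^ 2 * η) r L hh rfl n 0 0 ψ hψ (by omega)
  have e : smd η h r 0 0 ψ = (fun w => (1 / 2 : ℂ) ^ w.sum * (ψ w.sum *
        ee (((-(η * (h ^ w.sum * F w)) : ℤ) : ℝ) / 3 ^ r))) := by
    funext w
    unfold smd
    simp
  rwa [e] at this

end Pool.Agent.Lib.KD38
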